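import Pool.Agent.W845.GI.Stm

/-!
Project IP (MP_e42343_co, full answer: NO).  Patterns (3,1,1) and (2,2,1), `r = 5`.
Exact statements of all the pieces.  Proofs: NOTES.md.
-/

set_option autoImplicit false
open scoped Classical
open Finset

namespace Pool.Agent.R604.IP

open Pool.Agent.W845.GI

noncomputable section

/-! Cyclic orders are permutations `p` of `Fin n`; the vertex at position `k` (mod `n`) is
`pt p k`, the set of edges is `ES p` (see `Pool.Agent.W845.GI.Stm`). -/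

/-- `S` is the union of intervals of lengths 3, 1, 1. -/
def PatX {n : ℕ} [NeZero n] (p : Equiv.Perm (Fin n)) (S : Finset (Fin n)) : Prop :=
  ∃ i j k : ℕ, S = {pt p i, pt p (i + 1), pt p (i + 2), pt p j, pt p k}

/-- `S` is the union of intervals of lengths 2, 2, 1. -/
def PatY {n : ℕ} [NeZero n] (p : Equiv.Perm (Fin n)) (S : Finset (Fin n)) : Prop :=
  ∃ i j k : ℕ, S = {pt p i, pt p (i + 1), pt p j, pt p (j + 1), pt p k}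

/-- A family of 5-sets with at most `n^2/17` members. -/
def Fam {n : ℕ} (F : Finset (Finset (Fin n))) : Prop :=
  (∀ S ∈ F, S.card = 5) ∧ 17 * F.card ≤ n ^ 2

/-- Three different vertices in a common member. -/
def q3 {n : ℕ} (F : Finset (Finset (Fin n))) (a b c : Fin n) : Prop :=
  a ≠ b ∧ a ≠ c ∧ b ≠ c ∧ ∃ S ∈ F, a ∈ S ∧ b ∈ S ∧ c ∈ S

/-- Four different vertices in a common member. -/
def q4 {n : ℕ} (F : Finset (Finset (Fin n))) (a b c d : Fin n) : Prop :=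
  a ≠ b ∧ a ≠ c ∧ a ≠ d ∧ b ≠ c ∧ b ≠ d ∧ c ≠ d ∧ ∃ S ∈ F, a ∈ S ∧ b ∈ S ∧ c ∈ S ∧ d ∈ S

/-- Codegree of `a b` for triples. -/
def cg {n : ℕ} (F : Finset (Finset (Fin n))) (a b : Fin n) : ℕ :=
  (univ.filter (fun c => q3 F a b c)).card

/-- Number of `z` with `q4 F u a v z`. -/
def K1 {n : ℕ} (F : Finset (Finset (Fin n))) (u a v : Fin n) : ℕ :=
  (univ.filter (fun z => q4 F u a v z)).card

/-- Number of pairs `(v, z)` with `q4 F u a v z`. -/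
def D2 {n : ℕ} (F : Finset (Finset (Fin n))) (u a : Fin n) : ℕ :=
  (univ.filter (fun x : Fin n × Fin n => q4 F u a x.1 x.2)).card

/-- Number of triples `(a, v, z)` with `q4 F u a v z`. -/
def W3 {n : ℕ} (F : Finset (Finset (Fin n))) (u : Fin n) : ℕ :=
  (univ.filter (fun x : Fin n × Fin n × Fin n => q4 F u x.1 x.2.1 x.2.2)).card

/-! ## Completion -/

/-- The paths `a u – u – a' u` (`u ∈ U`) are disjoint and have their ends outside `U`. -/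
def Pth {n : ℕ} (U : Finset (Fin n)) (a a' : Fin n → Fin n) : Prop :=
  (∀ u ∈ U, a u ∉ U ∧ a' u ∉ U ∧ a u ≠ a' u) ∧
  ∀ u ∈ U, ∀ w ∈ U, u ≠ w → a u ≠ a w ∧ a u ≠ a' w ∧ a' u ≠ a' w

/-- The edges of the paths. -/
def RE {n : ℕ} (U : Finset (Fin n)) (a a' : Fin n → Fin n) (e : Ed n) : Prop :=
  ∃ u ∈ U, e = s(u, a u) ∨ e = s(u, a' u)

/-- A cyclic order through the given paths. -/
def S_BASE : Prop := ∀ (n : ℕ) [NeZero n], 3 ≤ n → ∀ (U : Finset (Fin n)) (a a' : Fin n → Fin n),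
  Pth U a a' → 3 * U.card + 1 ≤ n →
  ∃ p : Equiv.Perm (Fin n), ∀ e, RE U a a' e → e ∈ ES p

/-- Completion theorem. -/
def S_COMP : Prop := ∀ γ : ℝ, 0 < γ → γ ≤ 1 → ∃ μ : ℝ, 0 < μ ∧ ∀ h : ℕ, ∃ n0 : ℕ,
  ∀ (n : ℕ) [NeZero n], n0 ≤ n →
  ∀ (U : Finset (Fin n)) (a a' : Fin n → Fin n) (G : Ed n → Prop) (C : Ed n → Ed n → Prop),
    U.card ≤ h → Pth U a a' → Irr G → Cfl (μ * n) C →
    (∀ v, v ∉ U → γ * n ≤ (dg G v : ℝ)) →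
    ((univ.filter (fun x : Fin n × Fin n => x.1 ≠ x.2 ∧ ¬ G s(x.1, x.2))).card : ℝ) ≤
      γ ^ 2 / 4 * (n : ℝ) ^ 2 →
    ∃ p : Equiv.Perm (Fin n), (∀ e ∈ ES p, G e ∨ RE U a a' e) ∧
      (∀ e, RE U a a' e → e ∈ ES p) ∧
      ∀ e ∈ ES p, ∀ f ∈ ES p, ¬ RE U a a' e → ¬ RE U a a' f → ¬ C e f

/-! ## Pattern (3,1,1) -/

/-- Selection for (3,1,1). -/
def S_XSEL : Prop := ∀ μ : ℝ, 0 < μ → ∃ h n0 : ℕ, ∀ (n : ℕ) [NeZero n], n0 ≤ n →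
  ∀ F : Finset (Finset (Fin n)), Fam F →
  ∃ (U : Finset (Fin n)) (a a' : Fin n → Fin n), U.card ≤ h ∧ Pth U a a' ∧
    (∀ v, v ∉ U → ((univ.filter (fun z => μ * n < (cg F v z : ℝ))).card : ℝ) ≤ n / 100) ∧
    (∀ u ∈ U, ¬ q3 F u (a u) (a' u) ∧ (cg F u (a u) : ℝ) ≤ 95 / 100 * n ∧
      (cg F u (a' u) : ℝ) ≤ 95 / 100 * n)

/-- Lower bound for (3,1,1). -/
def S_XLOW : Prop := ∃ n0 : ℕ, ∀ (n : ℕ) [NeZero n], n0 ≤ n →
  ∀ F : Finset (Finset (Fin n)), Fam F → ∃ p : Equiv.Perm (Fin n), ∀ S ∈ F, ¬ PatX p S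

/-! ## Pattern (2,2,1) -/

/-- Selection for (2,2,1). -/
def S_YSEL : Prop := ∀ μ ε : ℝ, 0 < μ → 0 < ε → ∃ h n0 : ℕ, ∀ (n : ℕ) [NeZero n], n0 ≤ n →
  ∀ F : Finset (Finset (Fin n)), Fam F →
  ∃ (U : Finset (Fin n)) (a a' : Fin n → Fin n), U.card ≤ h ∧ Pth U a a' ∧
    (∀ v, v ∉ U → ((univ.filter (fun z => μ * n < (D2 F v z : ℝ))).card : ℝ) ≤ n / 1000) ∧
    (∀ u ∈ U, ∀ w ∈ U, u ≠ w → ¬ q4 F u (a u) w (a w) ∧ ¬ q4 F u (a u) w (a' w) ∧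
      ¬ q4 F u (a' u) w (a w) ∧ ¬ q4 F u (a' u) w (a' w)) ∧
    (∀ v, v ∉ U → (∑ u ∈ U, ((K1 F u (a u) v : ℝ) + (K1 F u (a' u) v : ℝ))) ≤ 39 / 40 * n) ∧
    (∑ u ∈ U, ((D2 F u (a u) : ℝ) + (D2 F u (a' u) : ℝ))) ≤ ε * (n : ℝ) ^ 2

/-- Lower bound for (2,2,1). -/
def S_YLOW : Prop := ∃ n0 : ℕ, ∀ (n : ℕ) [NeZero n], n0 ≤ n →
  ∀ F : Finset (Finset (Fin n)), Fam F → ∃ p : Equiv.Perm (Fin n), ∀ S ∈ F, ¬ PatY p S

/-! ### Pieces of the selection for (2,2,1).  Assignments are `x : U → Fin n`. -/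

/-- `x` where `σ` is true, `y` elsewhere. -/
def mix {ι α : Type} (σ : ι → Bool) (x y : ι → α) : ι → α := fun i => if σ i then x i else y i

/-- Box lemma (iterated Cauchy–Schwarz). -/
def S_BOX : Prop := ∀ (ι α : Type) [Fintype ι] [Fintype α] [Nonempty α] (A : Finset (ι → α))
  (p : ℝ), 0 ≤ p → p * (Fintype.card α : ℝ) ^ Fintype.card ι ≤ (A.card : ℝ) →
  p ^ (2 ^ Fintype.card ι) * (Fintype.card α : ℝ) ^ (2 * Fintype.card ι) ≤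
    ((univ.filter (fun z : (ι → α) × (ι → α) => ∀ σ, mix σ z.1 z.2 ∈ A)).card : ℝ)

/-- Total kill of `v` by the assignment. -/
def KS {n : ℕ} (F : Finset (Finset (Fin n))) (U : Finset (Fin n)) (x : U → Fin n) (v : Fin n) : ℕ :=
  ∑ i : U, K1 F i (x i) v

/-- Basic counting facts. -/
def S_CNT : Prop := ∀ (n : ℕ) (F : Finset (Finset (Fin n))), Fam F →
  (∑ v, W3 F v ≤ 8 * n ^ 2) ∧ (∀ v, ∑ z, D2 F v z = W3 F v) ∧
  (∀ v, ∑ z, D2 F z v = W3 F v) ∧ (∀ u v, ∑ a, K1 F u a v = D2 F u v) ∧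
  (∑ a, ∑ b, cg F a b ≤ 4 * n ^ 2) ∧
  (∀ u, 17 * ∑ a, cg F u a ≤ 12 * n ^ 2)

/-- Union bound for pairs and for single killers. -/
def S_UB1 : Prop := ∀ h : ℕ, ∃ n0 : ℕ, ∀ (n : ℕ) [NeZero n], n0 ≤ n →
  ∀ F : Finset (Finset (Fin n)), Fam F → ∀ U : Finset (Fin n), U.card ≤ h →
  ((univ.filter (fun x : U → Fin n =>
    (∃ i j : U, i ≠ j ∧ q4 F i (x i) j (x j)) ∨
    (∃ i : U, ∃ v, v ∉ U ∧ 9 / 10 * (n : ℝ) < (K1 F i (x i) v : ℝ)))).card : ℝ) ≤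
    4 / 5 * (n : ℝ) ^ U.card

/-- Several partial killers are rare. -/
def S_UB2 : Prop := ∀ (n : ℕ) [NeZero n], ∀ F : Finset (Finset (Fin n)), Fam F →
  ∀ U : Finset (Fin n), (∀ v, v ∉ U → 100000 * W3 F v ≤ n ^ 2) →
  ((univ.filter (fun x : U → Fin n =>
    (∀ i : U, ∀ v, v ∉ U → (K1 F i (x i) v : ℝ) ≤ 9 / 10 * (n : ℝ)) ∧
    (∃ v, v ∉ U ∧ 19 / 20 * (n : ℝ) < (KS F U x v : ℝ)))).card : ℝ) ≤
    1 / 100 * (n : ℝ) ^ U.card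

/-- Values inside `U` and coincidences of values are rare. -/
def S_COL : Prop := ∀ (n : ℕ) [NeZero n] (U : Finset (Fin n)),
  (n : ℝ) * ((univ.filter (fun x : U → Fin n =>
    (∃ i, x i ∈ U) ∨ ¬ Function.Injective x)).card : ℝ) ≤ 2 * (U.card : ℝ) ^ 2 * (n : ℝ) ^ U.card

/-- Markov bounds. -/
def S_MK : Prop := ∀ (n : ℕ) [NeZero n], ∀ F : Finset (Finset (Fin n)), Fam F →
  ∀ U : Finset (Fin n),
  (∀ (M : Finset (Fin n)) (κ : ℝ), (∑ v ∈ M, (W3 F v : ℝ)) ≤ κ * (n : ℝ) ^ 2 →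
    ((univ.filter (fun x : U → Fin n => (n : ℝ) / 100 < ∑ v ∈ M, (KS F U x v : ℝ))).card : ℝ) ≤
      100 * κ * (n : ℝ) ^ U.card) ∧
  (∀ δ : ℝ, 0 < δ →
    δ * n * ((univ.filter (fun x : U → Fin n => δ * (n : ℝ) ^ 2 <
      ∑ i : U, (D2 F i (x i) : ℝ))).card : ℝ) ≤ 8 * (n : ℝ) ^ U.card)

/-- Two assignments rarely kill the same light vertex. -/
def S_COIN : Prop := ∀ (n : ℕ) [NeZero n], ∀ F : Finset (Finset (Fin n)), Fam F →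
  ∀ (U N : Finset (Fin n)) (η θ : ℝ), 0 < θ → 0 ≤ η →
  (∀ v ∈ N, (W3 F v : ℝ) ≤ η * (n : ℝ) ^ 2) →
  ((univ.filter (fun z : (U → Fin n) × (U → Fin n) =>
    ∃ v ∈ N, θ * (n : ℝ) ^ 2 ≤ (KS F U z.1 v : ℝ) * (KS F U z.2 v : ℝ))).card : ℝ) ≤
    8 * η / θ * (n : ℝ) ^ (2 * U.card)

/-- Few pairs of assignments agree somewhere. -/
def S_DIA : Prop := ∀ (n : ℕ) [NeZero n] (U : Finset (Fin n)),
  (n : ℝ) * ((univ.filter (fun z : (U → Fin n) × (U → Fin n) => ∃ i, z.1 i = z.2 i)).card : ℝ) ≤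
    (U.card : ℝ) * (n : ℝ) ^ (2 * U.card)

/-- Choice of the threshold. -/
def S_PIG : Prop := ∀ (g : ℝ → ℝ), (∀ η, 0 < η → 0 < g η ∧ g η ≤ η) → ∀ κ η0 : ℝ, 0 < κ →
  0 < η0 → ∃ η1 : ℝ, 0 < η1 ∧ ∀ (n : ℕ) (W : Fin n → ℝ), (∀ v, 0 ≤ W v) →
  (∑ v, W v) ≤ 8 * (n : ℝ) ^ 2 → ∃ η, η1 ≤ η ∧ η ≤ η0 ∧
    (∑ v ∈ univ.filter (fun v => g η * (n : ℝ) ^ 2 < W v ∧ W v ≤ η * (n : ℝ) ^ 2), W v) ≤
      κ * (n : ℝ) ^ 2

/-! ## Upper bound -/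

/-- For `n = 3 m + 2`, `m = 3 ^ k`, there is a family of at most `n^2/18` sets which blocks both
patterns together. -/
def S_UPP : Prop := ∀ k : ℕ, 1 ≤ k → ∀ (n : ℕ) [NeZero n], n = 3 * 3 ^ k + 2 →
  ∃ F : Finset (Finset (Fin n)), (∀ S ∈ F, S.card = 5) ∧ 18 * F.card ≤ n ^ 2 ∧
    ∀ p : Equiv.Perm (Fin n), ∃ S ∈ F, PatX p S ∨ PatY p S

end

end Pool.Agent.R604.IP
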