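import Pool.Agent.R604.IP.Stm

/-!
Project IP, piece UB1: union bound for pairs and single killers.
-/

set_option autoImplicit false
open scoped Classical
open Finset

namespace Pool.Agent.R604.IP.UB1

open Pool.Agent.W845.GI
open Pool.Agent.R604.IP

theorem count1 {ι : Type} [Fintype ι] [DecidableEq ι] {n : ℕ} (i : ι) (B : Finset (Fin n)) :
    n * (univ.filter (fun x : ι → Fin n => x i ∈ B)).card ≤ B.card * n ^ Fintype.card ι := by
  have h : ((univ.filter (fun x : ι → Fin n => x i ∈ B)) ×ˢ (univ : Finset (Fin n))).card ≤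
      (B ×ˢ (univ : Finset (ι → Fin n))).card := by
    refine Finset.card_le_card_of_injOn (fun q => (q.1 i, Function.update q.1 i q.2)) ?_ ?_
    · intro q hq
      have hq' := Finset.mem_coe.mp hq
      rw [mem_product, mem_filter] at hq'
      rw [Finset.mem_coe, mem_product]
      exact ⟨hq'.1.2, mem_univ _⟩
    · intro q _ q' _ he
      obtain ⟨x, c⟩ := q
      obtain ⟨x', c'⟩ := q'
      simp only [Prod.mk.injEq] at he ⊢
      obtain ⟨h1, h2⟩ := he
      constructor
      · funext k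
        by_cases hk : k = i
        · rw [hk]
          exact h1
        · have := congrFun h2 k
          rwa [Function.update_of_ne hk, Function.update_of_ne hk] at this
      · have := congrFun h2 i
        rwa [Function.update_self, Function.update_self] at this
  rw [card_product, card_product, card_univ, card_univ, Fintype.card_fun, Fintype.card_fin] at h
  rw [mul_comm]
  exact h

theorem count2 {ι : Type} [Fintype ι] [DecidableEq ι] {n : ℕ} (i j : ι) (hij : i ≠ j)
    (P : Finset (Fin n × Fin n)) :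
    n ^ 2 * (univ.filter (fun x : ι → Fin n => (x i, x j) ∈ P)).card ≤
      P.card * n ^ Fintype.card ι := by
  have h : ((univ.filter (fun x : ι → Fin n => (x i, x j) ∈ P)) ×ˢ
      (univ : Finset (Fin n × Fin n))).card ≤ (P ×ˢ (univ : Finset (ι → Fin n))).card := by
    refine Finset.card_le_card_of_injOn (fun q => ((q.1 i, q.1 j),
      Function.update (Function.update q.1 i q.2.1) j q.2.2)) ?_ ?_
    · intro q hq
      have hq' := Finset.mem_coe.mp hq
      rw [mem_product, mem_filter] at hq'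
      rw [Finset.mem_coe, mem_product]
      exact ⟨hq'.1.2, mem_univ _⟩
    · intro q _ q' _ he
      obtain ⟨x, c, d⟩ := q
      obtain ⟨x', c', d'⟩ := q'
      simp only [Prod.mk.injEq] at he ⊢
      obtain ⟨⟨h1, h1'⟩, h2⟩ := he
      refine ⟨?_, ?_, ?_⟩
      · funext k
        by_cases hk : k = i
        · rw [hk]
          exact h1
        · by_cases hk' : k = j
          · rw [hk']
            exact h1'
          · have := congrFun h2 k
            rwa [Function.update_of_ne hk', Function.update_of_ne hk', Function.update_of_ne hk,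
              Function.update_of_ne hk] at this
      · have := congrFun h2 i
        rwa [Function.update_of_ne hij, Function.update_of_ne hij, Function.update_self,
          Function.update_self] at this
      · have := congrFun h2 j
        rwa [Function.update_self, Function.update_self] at this
  rw [card_product, card_product, card_univ, card_univ, Fintype.card_fun, Fintype.card_fin,
    Fintype.card_prod, Fintype.card_fin] at h
  calc n ^ 2 * (univ.filter (fun x : ι → Fin n => (x i, x j) ∈ P)).card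
      = (univ.filter (fun x : ι → Fin n => (x i, x j) ∈ P)).card * (n * n) := by ring
    _ ≤ _ := h

theorem q4_symm {n : ℕ} {F : Finset (Finset (Fin n))} {i a j b : Fin n} (h : q4 F i a j b) :
    q4 F j b i a := by
  obtain ⟨h1, h2, h3, h4, h5, h6, S, hS, m1, m2, m3, m4⟩ := h
  exact ⟨h6, h2.symm, h4.symm, h3.symm, h5.symm, h1, S, hS, m3, m4, m1, m2⟩

/-- the first charge -/
def ch1 {n : ℕ} (U S : Finset (Fin n)) : ℕ := ((S ∩ U).offDiag ×ˢ (S \ U).offDiag).card

/-- the second charge -/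
def ch2 {n : ℕ} (U S : Finset (Fin n)) : ℕ := (S ∩ U).card * (S \ U).card * ((S \ U).card - 2)

theorem ch_le {n : ℕ} (U S : Finset (Fin n)) (hS : S.card = 5) :
    50 * ch1 U S + 112 * ch2 U S ≤ 1272 := by
  unfold ch1 ch2
  rw [card_product, offDiag_card, offDiag_card]
  have h := card_inter_add_card_sdiff S U
  rw [hS] at h
  have h1 : (S ∩ U).card ≤ 5 := by omega
  have h2 : (S \ U).card = 5 - (S ∩ U).card := by omega
  rw [h2]
  generalize (S ∩ U).card = j at h1
  interval_cases j <;> norm_num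

section

variable {n : ℕ} (F : Finset (Finset (Fin n))) (U : Finset (Fin n))

/-- pairs of values -/
noncomputable def PP (i j : Fin n) : Finset (Fin n × Fin n) :=
  univ.filter (fun ab => q4 F i ab.1 j ab.2)

/-- light pairs of values -/
noncomputable def PL (i j : Fin n) : Finset (Fin n × Fin n) :=
  univ.filter (fun ab => ab.1 ∉ U ∧ ab.2 ∉ U ∧ q4 F i ab.1 j ab.2)

theorem PP_le (i j : Fin n) : (PP F i j).card ≤ (PL F U i j).card + 2 * U.card * n := by
  have h : PP F i j ⊆ PL F U i j ∪ (U ×ˢ univ ∪ univ ×ˢ U) := by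
    intro ab hab
    have h1 := (mem_filter.mp hab).2
    rw [mem_union, mem_union, mem_product, mem_product]
    by_cases ha : ab.1 ∈ U
    · exact Or.inr (Or.inl ⟨ha, mem_univ _⟩)
    · by_cases hb : ab.2 ∈ U
      · exact Or.inr (Or.inr ⟨mem_univ _, hb⟩)
      · exact Or.inl (mem_filter.mpr ⟨mem_univ _, ha, hb, h1⟩)
  have h2 := (card_le_card h).trans (card_union_le _ _)
  have h3 := card_union_le (U ×ˢ (univ : Finset (Fin n))) (univ ×ˢ U)
  rw [card_product, card_product, card_univ, Fintype.card_fin] at h3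
  calc (PP F i j).card ≤ _ := h2
    _ ≤ (PL F U i j).card + (U.card * n + n * U.card) := by omega
    _ = _ := by ring

theorem sum_PL : ∑ p ∈ (univ : Finset (U × U)).filter (fun p => p.1 ≠ p.2),
    (PL F U p.1 p.2).card ≤ ∑ S ∈ F, ch1 U S := by
  rw [← card_sigma]
  refine le_trans ?_ (card_biUnion_le (s := F)
    (t := fun S => (S ∩ U).offDiag ×ˢ (S \ U).offDiag))
  refine card_le_card_of_injOn (fun q => (((q.1.1 : Fin n), (q.1.2 : Fin n)), q.2)) ?_ ?_
  · intro q hq
    have hq' := mem_sigma.mp (Finset.mem_coe.mp hq)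
    have h1 := (mem_filter.mp hq'.1).2
    have h2 := (mem_filter.mp hq'.2).2
    obtain ⟨ha, hb, -, -, -, -, hab, -, S, hS, m1, m2, m3, m4⟩ := h2
    rw [Finset.mem_coe, mem_biUnion]
    refine ⟨S, hS, ?_⟩
    rw [mem_product, mem_offDiag, mem_offDiag]
    refine ⟨⟨mem_inter.mpr ⟨m1, q.1.1.2⟩, mem_inter.mpr ⟨m3, q.1.2.2⟩, ?_⟩,
      mem_sdiff.mpr ⟨m2, ha⟩, mem_sdiff.mpr ⟨m4, hb⟩, ?_⟩
    · intro he
      exact h1 (Subtype.ext he)
    · exact hab
  · intro q _ q' _ he
    obtain ⟨⟨i, j⟩, ab⟩ := q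
    obtain ⟨⟨i', j'⟩, ab'⟩ := q'
    simp only [Prod.mk.injEq] at he
    obtain ⟨⟨h1, h2⟩, h3⟩ := he
    have e1 : i = i' := Subtype.ext h1
    have e2 : j = j' := Subtype.ext h2
    subst e1
    subst e2
    subst h3
    rfl

/-- the single killers -/
noncomputable def BB (i : Fin n) : Finset (Fin n) :=
  univ.filter (fun a => ∃ v, v ∉ U ∧ 9 / 10 * (n : ℝ) < (K1 F i a v : ℝ))

/-- the killed vertex -/
theorem exists_vv : ∃ w : Fin n → Fin n → Fin n, ∀ i, ∀ a ∈ BB F U i,
    w i a ∉ U ∧ 9 / 10 * (n : ℝ) < (K1 F i a (w i a) : ℝ) := by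
  have h : ∀ i a : Fin n, ∃ v : Fin n, a ∈ BB F U i →
      v ∉ U ∧ 9 / 10 * (n : ℝ) < (K1 F i a v : ℝ) := by
    intro i a
    by_cases ha : a ∈ BB F U i
    · obtain ⟨v, hv⟩ := (mem_filter.mp ha).2
      exact ⟨v, fun _ => hv⟩
    · exact ⟨a, fun h => absurd h ha⟩
  choose w hw using h
  exact ⟨w, hw⟩

/-- the second charging -/
theorem sum_BL (w : Fin n → Fin n → Fin n)
    (hw : ∀ i, ∀ a ∈ BB F U i, w i a ∉ U ∧ 9 / 10 * (n : ℝ) < (K1 F i a (w i a) : ℝ)) :
    ∑ p ∈ (U ×ˢ Uᶜ).filter (fun p : Fin n × Fin n => p.2 ∈ BB F U p.1),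
      (univ.filter (fun z => z ∉ U ∧ q4 F p.1 p.2 (w p.1 p.2) z)).card ≤
        ∑ S ∈ F, ch2 U S := by
  have hpc : ∀ S : Finset (Fin n), (((S ∩ U) ×ˢ (S \ U)).sigma (fun p : Fin n × Fin n =>
      if w p.1 p.2 ∈ (S \ U).erase p.2 then ((S \ U).erase p.2).erase (w p.1 p.2) else ∅)).card ≤
      ch2 U S := by
    intro S
    rw [card_sigma]
    unfold ch2
    rw [← card_product]
    refine sum_le_card_nsmul _ _ _ fun p hp => ?_
    have hp2 := (mem_product.mp hp).2
    by_cases h : w p.1 p.2 ∈ (S \ U).erase p.2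
    · rw [if_pos h, card_erase_of_mem h, card_erase_of_mem hp2]
      omega
    · rw [if_neg h, card_empty]
      exact Nat.zero_le _
  rw [← card_sigma]
  refine le_trans ?_ (sum_le_sum fun S (_ : S ∈ F) => hpc S)
  refine le_trans ?_ (card_biUnion_le (s := F)
    (t := fun S => ((S ∩ U) ×ˢ (S \ U)).sigma (fun p : Fin n × Fin n =>
      if w p.1 p.2 ∈ (S \ U).erase p.2 then ((S \ U).erase p.2).erase (w p.1 p.2) else ∅)))
  refine card_le_card fun q hq => ?_
  have hq' := mem_sigma.mp hq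
  have h1 := mem_filter.mp hq'.1
  have h2 := (mem_filter.mp hq'.2).2
  have h1' := mem_product.mp h1.1
  obtain ⟨hz, -, -, -, n1, n2, n3, S, hS, m1, m2, m3, m4⟩ := h2
  have hwU := (hw _ _ h1.2).1
  rw [mem_biUnion]
  refine ⟨S, hS, ?_⟩
  rw [mem_sigma, mem_product]
  have hwm : w q.1.1 q.1.2 ∈ (S \ U).erase q.1.2 :=
    mem_erase.mpr ⟨n1.symm, mem_sdiff.mpr ⟨m3, hwU⟩⟩
  refine ⟨⟨mem_inter.mpr ⟨m1, h1'.1⟩, mem_sdiff.mpr ⟨m2, mem_compl.mp h1'.2⟩⟩, ?_⟩
  rw [if_pos hwm]
  exact mem_erase.mpr ⟨n3.symm, mem_erase.mpr ⟨n2.symm, mem_sdiff.mpr ⟨m4, hz⟩⟩⟩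

/-- the number of single killers -/
theorem BB_bound : (9 / 10 * (n : ℝ) - U.card) *
    (∑ i ∈ U, ((BB F U i \ U).card : ℝ)) ≤ ((∑ S ∈ F, ch2 U S : ℕ) : ℝ) := by
  obtain ⟨w, hw⟩ := exists_vv F U
  have h1 := sum_BL F U w hw
  have h2 : (∑ i ∈ U, (BB F U i \ U).card) =
      ((U ×ˢ Uᶜ).filter (fun p : Fin n × Fin n => p.2 ∈ BB F U p.1)).card := by
    rw [← card_sigma]
    refine card_bij (fun q _ => (q.1, q.2)) ?_ ?_ ?_
    · intro q hq
      have hq' := mem_sigma.mp hq
      have hq2 := mem_sdiff.mp hq'.2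
      exact mem_filter.mpr ⟨mem_product.mpr ⟨hq'.1, mem_compl.mpr hq2.2⟩, hq2.1⟩
    · intro q _ q' _ he
      obtain ⟨i, a⟩ := q
      obtain ⟨i', a'⟩ := q'
      simp only [Prod.mk.injEq] at he
      obtain ⟨h1, h2⟩ := he
      subst h1
      subst h2
      rfl
    · intro p hp
      have hp' := mem_filter.mp hp
      have hp2 := mem_product.mp hp'.1
      exact ⟨⟨p.1, p.2⟩, mem_sigma.mpr ⟨hp2.1, mem_sdiff.mpr ⟨hp'.2, mem_compl.mp hp2.2⟩⟩, rfl⟩
  have h3 : ∀ p ∈ (U ×ˢ Uᶜ).filter (fun p : Fin n × Fin n => p.2 ∈ BB F U p.1),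
      9 / 10 * (n : ℝ) - U.card ≤
        ((univ.filter (fun z => z ∉ U ∧ q4 F p.1 p.2 (w p.1 p.2) z)).card : ℝ) := by
    intro p hp
    have hp' := mem_filter.mp hp
    have h4 := (hw _ _ hp'.2).2
    have h5 : K1 F p.1 p.2 (w p.1 p.2) ≤
        (univ.filter (fun z => z ∉ U ∧ q4 F p.1 p.2 (w p.1 p.2) z)).card + U.card := by
      unfold K1
      refine (card_le_card (fun z hz => ?_)).trans (card_union_le _ _)
      have hz' := (mem_filter.mp hz).2
      rw [mem_union]
      by_cases hzU : z ∈ U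
      · exact Or.inr hzU
      · exact Or.inl (mem_filter.mpr ⟨mem_univ _, hzU, hz'⟩)
    have h6 : (K1 F p.1 p.2 (w p.1 p.2) : ℝ) ≤
        ((univ.filter (fun z => z ∉ U ∧ q4 F p.1 p.2 (w p.1 p.2) z)).card : ℝ) + U.card := by
      exact_mod_cast h5
    linarith
  have h7 : (∑ i ∈ U, ((BB F U i \ U).card : ℝ)) =
      (((U ×ˢ Uᶜ).filter (fun p : Fin n × Fin n => p.2 ∈ BB F U p.1)).card : ℝ) := by
    rw [← h2]
    push_cast
    rfl
  rw [h7]
  have h8 : (9 / 10 * (n : ℝ) - U.card) *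
      (((U ×ˢ Uᶜ).filter (fun p : Fin n × Fin n => p.2 ∈ BB F U p.1)).card : ℝ) ≤
      ∑ p ∈ (U ×ˢ Uᶜ).filter (fun p : Fin n × Fin n => p.2 ∈ BB F U p.1),
        ((univ.filter (fun z => z ∉ U ∧ q4 F p.1 p.2 (w p.1 p.2) z)).card : ℝ) := by
    have := card_nsmul_le_sum _ _ _ h3
    rw [nsmul_eq_mul, mul_comm] at this
    exact this
  refine h8.trans ?_
  have h9 : ((∑ p ∈ (U ×ˢ Uᶜ).filter (fun p : Fin n × Fin n => p.2 ∈ BB F U p.1),
      (univ.filter (fun z => z ∉ U ∧ q4 F p.1 p.2 (w p.1 p.2) z)).card : ℕ) : ℝ) ≤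
      ((∑ S ∈ F, ch2 U S : ℕ) : ℝ) := by exact_mod_cast h1
  rw [Nat.cast_sum] at h9
  exact h9

end

/-- the final computation -/
theorem arith {N P X Y C1 C2 T f u h : ℝ} (hN : 140 * h + 20 * (h ^ 3 + h ^ 2) + 1 ≤ N)
    (hP : 0 ≤ P) (hT : 0 ≤ T) (hu0 : 0 ≤ u) (huh : u ≤ h)
    (ha : N ^ 2 * (2 * X) ≤ (C1 + 2 * u ^ 3 * N) * P) (hb : N * Y ≤ (T + u ^ 2) * P)
    (hc : (9 / 10 * N - u) * T ≤ C2) (hd : 50 * C1 + 112 * C2 ≤ 1272 * f)
    (hf : 17 * f ≤ N ^ 2) : X + Y ≤ 4 / 5 * P := by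
  have hh0 : 0 ≤ h := hu0.trans huh
  have hh3 : 0 ≤ h ^ 3 + h ^ 2 := by positivity
  have hN0 : 0 < N := by linarith
  have h1 : 100 * N * T ≤ 112 * C2 := by
    have h2 : 0 ≤ (112 * (9 / 10 * N - u) - 100 * N) * T := by
      apply mul_nonneg _ hT
      linarith
    nlinarith
  have h3 : u ^ 3 + u ^ 2 ≤ h ^ 3 + h ^ 2 := by gcongr
  have h4 : 100 * (u ^ 3 + u ^ 2) * N ≤ 5 * N ^ 2 := by
    have h5 : 20 * (u ^ 3 + u ^ 2) ≤ N := by linarith
    nlinarith
  have h6 : 100 * N ^ 2 * (X + Y) ≤ P * (80 * N ^ 2) := by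
    have h7 : 100 * N ^ 2 * (X + Y) ≤ 50 * ((C1 + 2 * u ^ 3 * N) * P) +
        100 * N * ((T + u ^ 2) * P) := by
      have h8 : 100 * N * (N * Y) ≤ 100 * N * ((T + u ^ 2) * P) :=
        mul_le_mul_of_nonneg_left hb (by linarith)
      nlinarith
    have h9 : 50 * ((C1 + 2 * u ^ 3 * N) * P) + 100 * N * ((T + u ^ 2) * P) =
        P * (50 * C1 + 100 * N * T + 100 * (u ^ 3 + u ^ 2) * N) := by ring
    rw [h9] at h7
    refine h7.trans (mul_le_mul_of_nonneg_left ?_ hP)
    have := sq_nonneg N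
    linarith
  have h10 : N ^ 2 * (X + Y) ≤ N ^ 2 * (4 / 5 * P) := by nlinarith
  exact le_of_mul_le_mul_left h10 (by positivity)

theorem t_ub1 : S_UB1 := by
  intro h
  refine ⟨140 * h + 20 * (h ^ 3 + h ^ 2) + 1, ?_⟩
  intro n _ hn F hF U hU
  obtain ⟨hF5, hF17⟩ := hF
  obtain ⟨X, hX⟩ : ∃ X : Finset (U → Fin n), X = univ.filter (fun x : U → Fin n =>
    ∃ i j : U, i ≠ j ∧ q4 F i (x i) j (x j)) := ⟨_, rfl⟩
  obtain ⟨Y, hY⟩ : ∃ Y : Finset (U → Fin n), Y = univ.biUnion (fun i : U =>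
    univ.filter (fun x : U → Fin n => x i ∈ BB F U i)) := ⟨_, rfl⟩
  have hsub : (univ.filter (fun x : U → Fin n =>
      (∃ i j : U, i ≠ j ∧ q4 F i (x i) j (x j)) ∨
      (∃ i : U, ∃ v, v ∉ U ∧ 9 / 10 * (n : ℝ) < (K1 F i (x i) v : ℝ)))) ⊆ X ∪ Y := by
    intro x hx
    rw [mem_union]
    rcases (mem_filter.mp hx).2 with h1 | ⟨i, v, hv, hK⟩
    · left
      rw [hX]
      exact mem_filter.mpr ⟨mem_univ _, h1⟩
    · right
      rw [hY, mem_biUnion]
      exact ⟨i, mem_univ _, mem_filter.mpr ⟨mem_univ _, mem_filter.mpr ⟨mem_univ _, v, hv, hK⟩⟩⟩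
  have hcard := (card_le_card hsub).trans (card_union_le X Y)
  have hcU : Fintype.card U = U.card := Fintype.card_coe U
  -- the first set
  have hX1 : 2 * X.card ≤ ∑ p ∈ (univ : Finset (U × U)).filter (fun p => p.1 ≠ p.2),
      (univ.filter (fun x : U → Fin n => (x p.1, x p.2) ∈ PP F p.1 p.2)).card := by
    have h2 := sum_card_bipartiteAbove_eq_sum_card_bipartiteBelow
      (s := (univ : Finset (U → Fin n))) (t := (univ : Finset (U × U)).filter
        (fun p => p.1 ≠ p.2)) (fun (x : U → Fin n) (p : U × U) =>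
          (x p.1, x p.2) ∈ PP F p.1 p.2)
    unfold bipartiteAbove bipartiteBelow at h2
    rw [← h2]
    have h3 : ∀ x ∈ X, 2 ≤ (((univ : Finset (U × U)).filter (fun p => p.1 ≠ p.2)).filter
        (fun p => (x p.1, x p.2) ∈ PP F p.1 p.2)).card := by
      intro x hx
      rw [hX] at hx
      obtain ⟨i, j, hij, hq⟩ := (mem_filter.mp hx).2
      refine one_lt_card.mpr ⟨(i, j), ?_, (j, i), ?_, ?_⟩
      · exact mem_filter.mpr ⟨mem_filter.mpr ⟨mem_univ _, hij⟩, mem_filter.mpr ⟨mem_univ _, hq⟩⟩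
      · exact mem_filter.mpr ⟨mem_filter.mpr ⟨mem_univ _, hij.symm⟩,
          mem_filter.mpr ⟨mem_univ _, q4_symm hq⟩⟩
      · intro he
        exact hij (Prod.mk.inj he).1
    calc 2 * X.card = ∑ _x ∈ X, 2 := by rw [sum_const, smul_eq_mul, mul_comm]
      _ ≤ ∑ x ∈ X, (((univ : Finset (U × U)).filter (fun p => p.1 ≠ p.2)).filter
        (fun p => (x p.1, x p.2) ∈ PP F p.1 p.2)).card := sum_le_sum h3
      _ ≤ _ := sum_le_sum_of_subset (subset_univ _)
  have hX2 : n ^ 2 * (2 * X.card) ≤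
      (∑ S ∈ F, ch1 U S + 2 * U.card ^ 3 * n) * n ^ U.card := by
    calc n ^ 2 * (2 * X.card) ≤ n ^ 2 * ∑ p ∈ (univ : Finset (U × U)).filter
          (fun p => p.1 ≠ p.2),
          (univ.filter (fun x : U → Fin n => (x p.1, x p.2) ∈ PP F p.1 p.2)).card :=
          Nat.mul_le_mul_left _ hX1
      _ = ∑ p ∈ (univ : Finset (U × U)).filter (fun p => p.1 ≠ p.2),
          n ^ 2 * (univ.filter (fun x : U → Fin n => (x p.1, x p.2) ∈ PP F p.1 p.2)).card :=
          mul_sum _ _ _
      _ ≤ ∑ p ∈ (univ : Finset (U × U)).filter (fun p => p.1 ≠ p.2),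
          (PP F p.1 p.2).card * n ^ U.card := by
          refine sum_le_sum fun p hp => ?_
          have := count2 p.1 p.2 (mem_filter.mp hp).2 (PP F p.1 p.2)
          rwa [hcU] at this
      _ = (∑ p ∈ (univ : Finset (U × U)).filter (fun p => p.1 ≠ p.2),
          (PP F p.1 p.2).card) * n ^ U.card := (sum_mul _ _ _).symm
      _ ≤ _ := by
          refine Nat.mul_le_mul_right _ ?_
          calc ∑ p ∈ (univ : Finset (U × U)).filter (fun p => p.1 ≠ p.2), (PP F p.1 p.2).card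
              ≤ ∑ p ∈ (univ : Finset (U × U)).filter (fun p => p.1 ≠ p.2),
                ((PL F U p.1 p.2).card + 2 * U.card * n) :=
                sum_le_sum fun p _ => PP_le F U p.1 p.2
            _ = ∑ p ∈ (univ : Finset (U × U)).filter (fun p => p.1 ≠ p.2),
                (PL F U p.1 p.2).card + ((univ : Finset (U × U)).filter
                  (fun p => p.1 ≠ p.2)).card * (2 * U.card * n) := by
                rw [sum_add_distrib, sum_const, smul_eq_mul]
            _ ≤ ∑ S ∈ F, ch1 U S + (U.card * U.card) * (2 * U.card * n) := by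
                refine add_le_add (sum_PL F U) (Nat.mul_le_mul_right _ ?_)
                refine (card_filter_le _ _).trans ?_
                rw [card_univ, Fintype.card_prod, hcU]
            _ = _ := by ring
  -- the second set
  have hY2 : n * Y.card ≤ (∑ i ∈ U, (BB F U i \ U).card + U.card ^ 2) * n ^ U.card := by
    calc n * Y.card ≤ n * ∑ i : U, (univ.filter (fun x : U → Fin n => x i ∈ BB F U i)).card := by
          rw [hY]
          exact Nat.mul_le_mul_left _ card_biUnion_le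
      _ = ∑ i : U, n * (univ.filter (fun x : U → Fin n => x i ∈ BB F U i)).card := mul_sum _ _ _
      _ ≤ ∑ i : U, (BB F U i).card * n ^ U.card := by
          refine sum_le_sum fun i _ => ?_
          have := count1 i (BB F U i)
          rwa [hcU] at this
      _ = (∑ i : U, (BB F U i).card) * n ^ U.card := (sum_mul _ _ _).symm
      _ ≤ _ := by
          refine Nat.mul_le_mul_right _ ?_
          calc ∑ i : U, (BB F U i).card ≤ ∑ i : U, ((BB F U i \ U).card + U.card) := by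
                refine sum_le_sum fun i _ => ?_
                have := card_le_card_sdiff_add_card (s := BB F U i) (t := U)
                exact this
            _ = ∑ i : U, (BB F U i \ U).card + U.card * U.card := by
                rw [sum_add_distrib, sum_const, smul_eq_mul, card_univ, hcU]
            _ = _ := by
                rw [sum_coe_sort U (fun i => (BB F U i \ U).card), sq]
  have hc := BB_bound F U
  have hch : 50 * (∑ S ∈ F, ch1 U S) + 112 * (∑ S ∈ F, ch2 U S) ≤ 1272 * F.card := by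
    rw [mul_sum, mul_sum, ← sum_add_distrib]
    calc _ ≤ ∑ _S ∈ F, 1272 := sum_le_sum fun S hS => ch_le U S (hF5 S hS)
      _ = _ := by rw [sum_const, smul_eq_mul, mul_comm]
  have hres := arith (N := (n : ℝ)) (P := (n : ℝ) ^ U.card) (X := (X.card : ℝ))
    (Y := (Y.card : ℝ)) (C1 := ((∑ S ∈ F, ch1 U S : ℕ) : ℝ))
    (C2 := ((∑ S ∈ F, ch2 U S : ℕ) : ℝ)) (T := ∑ i ∈ U, ((BB F U i \ U).card : ℝ))
    (f := (F.card : ℝ)) (u := (U.card : ℝ)) (h := (h : ℝ)) (by exact_mod_cast hn)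
    (by positivity) (sum_nonneg fun _ _ => Nat.cast_nonneg _) (Nat.cast_nonneg _)
    (by exact_mod_cast hU) (by exact_mod_cast hX2) (by exact_mod_cast hY2) hc
    (by exact_mod_cast hch) (by exact_mod_cast hF17)
  refine le_trans ?_ hres
  exact_mod_cast hcard

end Pool.Agent.R604.IP.UB1
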